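import Pool.Agent.AT12.Stmts3

/-!
# Squad AT12, row CSM: the average of an invariant function over the coset
-/

open scoped BigOperators

set_option autoImplicit false

noncomputable section

namespace Pool.Agent.PP.T12.H87

open Pool.Agent.Helper51_AWC Pool.Agent.Helper79_WRA Pool.Agent.PP Pool.Agent.PP.KF
open Pool.Agent.PP.K9 Pool.Agent.PP.K9.H97 Pool.Agent.PP.H75 Pool.Agent.PP.T3 Pool.Agent.PP.T2
open Pool.Agent.PP.T8

attribute [local instance] Ideal.Quotient.field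

/-- CSM -/
theorem csm (pwu : T2.PwuStmt) : CsmStmt := by
  intro ℓ _ F _ hF h2 G _ _ N hN e V γ hL y w m hC f hf j hj
  have hℓ : ℓ.Prime := Fact.out
  have hℓ0 : ℓ ≠ 0 := hℓ.ne_zero
  have hcomm : Commute y w := hL.ab y hC.yV w hC.wV
  have hfr : ∀ (r : ℕ), ∀ v ∈ V, f (v ^ N ^ r) = f v := by
    intro r
    induction r with
    | zero => intro v _; rw [pow_zero, pow_one]
    | succ r ih =>
      intro v hv
      rw [pow_succ, pow_mul, hf _ (V.pow_mem hv _), ih v hv]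
  have hEl : ∀ v ∈ V, El ℓ v := by
    intro v hv
    obtain ⟨n, hn⟩ := hL.tp.pg ⟨v, hv⟩
    refine ⟨n, ?_⟩
    have := congrArg Subtype.val hn
    simpa using this
  have part1 : ∀ j' k : ℕ, j ≡ j' [MOD ℓ] →
      f (y ^ j' * w ^ (ℓ * k)) = f (y ^ j * w ^ (ℓ * k)) := by
    intro j' k hjj
    have hcop : Nat.Coprime j (ℓ ^ 2) := by
      apply Nat.Coprime.pow_right
      exact ((Nat.Prime.coprime_iff_not_dvd hℓ).2 hj).symm
    obtain ⟨u, -, hu⟩ := Nat.exists_mul_mod_eq_one_of_coprime hcop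
      (by nlinarith [hℓ.two_le] : 1 < ℓ ^ 2)
    have hu1 : j * u ≡ 1 [MOD ℓ ^ 2] := by
      unfold Nat.ModEq
      rw [hu, Nat.mod_eq_of_lt]
      nlinarith [hℓ.two_le]
    have hc : j * (u * j') ≡ j' [MOD ℓ ^ 2] := by
      have := hu1.mul_right j'
      rwa [one_mul, mul_assoc] at this
    have hc1 : 1 ≡ u * j' [MOD ℓ] := by
      have h1 : j * (u * j') ≡ j' [MOD ℓ] := hc.of_dvd (dvd_pow_self ℓ two_ne_zero)
      have h3 : j * 1 ≡ j * (u * j') [MOD ℓ] := by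
        rw [mul_one]
        exact hjj.trans h1.symm
      exact Nat.ModEq.cancel_left_of_coprime ((Nat.Prime.coprime_iff_not_dvd hℓ).2 hj) h3
    obtain ⟨r, hr⟩ := hN.gen 1 (u * j') (by
      rw [Nat.dvd_one]; exact hℓ.one_lt.ne') hc1
    have hmem : y ^ j * w ^ (ℓ * k) ∈ V := V.mul_mem (V.pow_mem hC.yV _) (V.pow_mem hC.wV _)
    have h4 := hr _ (hEl _ hmem)
    rw [pow_one] at h4
    have h5 : (y ^ j * w ^ (ℓ * k)) ^ (u * j') = y ^ j' * w ^ (ℓ * k) := by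
      rw [(hcomm.pow_pow _ _).mul_pow, ← pow_mul, ← pow_mul]
      congr 1
      · rw [pow_eq_pow_iff_modEq, hC.oy]
        exact hc
      · rw [pow_eq_pow_iff_modEq, hC.ow]
        have h6 : ℓ * (k * (u * j')) ≡ ℓ * (k * 1) [MOD ℓ * ℓ] :=
          (hc1.symm.mul_left k).mul_left' ℓ
        rw [mul_one] at h6
        rw [mul_assoc, pow_two]
        exact h6
    rw [← h5, ← h4, hfr r _ hmem]
  refine ⟨part1, ?_⟩
  obtain ⟨hU, -⟩ := pwu G (ℓ ^ 1) V hL.ab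
  have hmemU : ∀ i k : ℕ, y ^ (ℓ * i) * w ^ (ℓ * k) ∈ Uw (ℓ ^ 1) V := by
    intro i k
    rw [hU]
    refine ⟨y ^ i * w ^ k, V.mul_mem (V.pow_mem hC.yV _) (V.pow_mem hC.wV _), ?_⟩
    rw [pow_one, (hcomm.pow_pow _ _).mul_pow, ← pow_mul, ← pow_mul, mul_comm i, mul_comm k]
  have hmod : ∀ (x : G), orderOf x = ℓ ^ 2 → ∀ i : ℕ, x ^ (ℓ * (i % ℓ)) = x ^ (ℓ * i) := by
    intro x hx i
    rw [pow_eq_pow_iff_modEq, hx, pow_two]
    exact (Nat.mod_modEq i ℓ).mul_left' ℓ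
  let φ : Fin ℓ × Fin ℓ → Uw (ℓ ^ 1) V := fun p =>
    ⟨y ^ (ℓ * (p.1 : ℕ)) * w ^ (ℓ * (p.2 : ℕ)), hmemU p.1 p.2⟩
  have hφ : Function.Bijective φ := by
    constructor
    · intro p q hpq
      have h1 := congrArg Subtype.val hpq
      obtain ⟨h3, h4⟩ := hC.uni _ _ _ _ h1
      rw [pow_two] at h3 h4
      have h5 := Nat.ModEq.mul_left_cancel' hℓ0 h3
      have h6 := Nat.ModEq.mul_left_cancel' hℓ0 h4
      have h7 := Nat.ModEq.eq_of_lt_of_lt h5 p.1.2 q.1.2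
      have h8 := Nat.ModEq.eq_of_lt_of_lt h6 p.2.2 q.2.2
      exact Prod.ext (Fin.ext h7) (Fin.ext h8)
    · rintro ⟨x, hx⟩
      obtain ⟨v, hv, hxv⟩ := (hU x).1 hx
      obtain ⟨i, k, rfl⟩ := hC.gen v hv
      refine ⟨(⟨i % ℓ, Nat.mod_lt _ hℓ.pos⟩, ⟨k % ℓ, Nat.mod_lt _ hℓ.pos⟩), ?_⟩
      apply Subtype.ext
      change y ^ (ℓ * (i % ℓ)) * w ^ (ℓ * (k % ℓ)) = x
      rw [hmod y hC.oy, hmod w hC.ow, hxv, pow_one, (hcomm.pow_pow _ _).mul_pow, ← pow_mul,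
        ← pow_mul, mul_comm i, mul_comm k]
  have hcard : Nat.card (Uw (ℓ ^ 1) V) = ℓ * ℓ := by
    rw [← Nat.card_eq_of_bijective φ hφ, Nat.card_prod, Nat.card_fin]
  have hsum : ∑ᶠ v : Uw (ℓ ^ 1) V, f (y ^ j * v) =
      (ℓ : ℂ) * ∑ k ∈ Finset.range ℓ, f (y ^ j * w ^ (ℓ * k)) := by
    rw [← finsum_comp_equiv (Equiv.ofBijective φ hφ), finsum_eq_sum_of_fintype,
      Fintype.sum_prod_type]
    have h1 : ∀ a b : Fin ℓ, f (y ^ j * ((Equiv.ofBijective φ hφ) (a, b) : Uw (ℓ ^ 1) V)) =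
        f (y ^ j * w ^ (ℓ * (b : ℕ))) := by
      intro a b
      change f (y ^ j * (y ^ (ℓ * (a : ℕ)) * w ^ (ℓ * (b : ℕ)))) = _
      rw [← mul_assoc, ← pow_add]
      apply part1
      unfold Nat.ModEq
      rw [Nat.add_mul_mod_self_left]
    rw [Finset.sum_congr rfl (fun a _ => Finset.sum_congr rfl (fun b _ => h1 a b)),
      Finset.sum_const, Finset.card_univ, Fintype.card_fin, nsmul_eq_mul,
      Finset.sum_range (fun k => f (y ^ j * w ^ (ℓ * k)))]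
  rw [hcard, hsum]
  have hne : (ℓ : ℂ) ≠ 0 := Nat.cast_ne_zero.2 hℓ0
  push_cast
  rw [← mul_assoc]
  congr 1
  field_simp

end Pool.Agent.PP.T12.H87
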